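import Pool.Agent.H817R5.EP.Stubs

/-!
# Erdos problem 676 (MP_1626ca_nt): task VL, the variance lemma
-/

set_option autoImplicit false

open Finset
open Pool.Agent.H817R5.EP

namespace Pool.Agent.H862R5.EP

namespace VLx

theorem ind_eq {a : ℕ → ℕ} {T : Finset ℕ} {x y : ℕ} (h : ∀ q ∈ T, x % q ^ 2 = y % q ^ 2) :
    ind a T x = ind a T y := by
  have h1 : (∀ q ∈ T, x % q ^ 2 < a q) ↔ (∀ q ∈ T, y % q ^ 2 < a q) :=
    forall₂_congr fun q hq => by rw [h q hq]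
  unfold ind
  simp only [h1]

theorem ind_mod {a : ℕ → ℕ} {T U : Finset ℕ} (h : T ⊆ U) (n r : ℕ) :
    ind a T (n % (∏ q ∈ U, q ^ 2) + r) = ind a T (n + r) := by
  apply ind_eq
  intro q hq
  have h1 : q ^ 2 ∣ ∏ q ∈ U, q ^ 2 := dvd_prod_of_mem (fun q => q ^ 2) (h hq)
  exact ((Nat.mod_modEq n (∏ q ∈ U, q ^ 2)).of_dvd h1).add_right r

theorem den_nonneg (a : ℕ → ℕ) (T : Finset ℕ) : 0 ≤ den a T := by
  unfold den
  exact prod_nonneg fun q _ => by positivity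

/-- one pair of shifts -/
theorem step (hper : St_PER) (hpair : St_PAIR) (hpabs : St_PABS) {a : ℕ → ℕ} {P : Finset ℕ}
    {z : ℕ} (hA : Adm a P z) {T T' : Finset ℕ} (hT : T ⊆ P) (hT' : T' ⊆ P) (r s X0 X : ℕ) :
    |∑ y ∈ Ico X0 (X0 + X), (ind a T (y + r) - den a T) * (ind a T' (y + s) - den a T') -
      X * (den a (T \ T') * den a (T' \ T) * (kap a (T ∩ T') r s - den a (T ∩ T') ^ 2))| ≤
      8 * ((∏ q ∈ T, (a q : ℝ)) * ∏ q ∈ T', (a q : ℝ)) := by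
  have hQ : 0 < ∏ q ∈ T ∪ T', q ^ 2 :=
    prod_pos fun q hq => pow_pos (hA q (union_subset hT hT' hq)).1.pos 2
  have h1 := (hper (∏ q ∈ T ∪ T', q ^ 2) X0 X
    (fun y => (ind a T (y + r) - den a T) * (ind a T' (y + s) - den a T')) hQ (by
      intro n
      show (ind a T (n % _ + r) - den a T) * (ind a T' (n % _ + s) - den a T') = _
      rw [ind_mod subset_union_left, ind_mod subset_union_right])).1
  have h2 := hpabs a P T T' z r s hA hT hT'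
  have h3 := hpair a P T T' z r s hA hT hT'
  have h4 : ((∏ q ∈ T ∪ T', q ^ 2 : ℕ) : ℝ) = ∏ q ∈ T ∪ T', (q : ℝ) ^ 2 := by push_cast; rfl
  have h5 : (∏ q ∈ T ∪ T', (q : ℝ) ^ 2) ≠ 0 := by
    rw [← h4]
    exact_mod_cast hQ.ne'
  have h6 : (X : ℝ) / ((∏ q ∈ T ∪ T', q ^ 2 : ℕ) : ℝ) *
      ∑ y ∈ range (∏ q ∈ T ∪ T', q ^ 2),
        (ind a T (y + r) - den a T) * (ind a T' (y + s) - den a T') =
      X * (den a (T \ T') * den a (T' \ T) * (kap a (T ∩ T') r s - den a (T ∩ T') ^ 2)) := by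
    rw [h3, h4]
    field_simp
  rw [h6] at h1
  refine h1.trans ?_
  linarith

/-- all shifts -/
theorem step2 (hper : St_PER) (hpair : St_PAIR) (hpabs : St_PABS) {a : ℕ → ℕ} {P : Finset ℕ}
    {z : ℕ} (hA : Adm a P z) {T T' : Finset ℕ} (hT : T ⊆ P) (hT' : T' ⊆ P) (H X0 X : ℕ) :
    |∑ r ∈ range H, ∑ s ∈ range H, ∑ y ∈ Ico X0 (X0 + X),
      (ind a T (y + r) - den a T) * (ind a T' (y + s) - den a T')| ≤
      X * (den a (T \ T') * den a (T' \ T) *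
        |∑ r ∈ range H, ∑ s ∈ range H, (kap a (T ∩ T') r s - den a (T ∩ T') ^ 2)|) +
      8 * (H : ℝ) ^ 2 * ((∏ q ∈ T, (a q : ℝ)) * ∏ q ∈ T', (a q : ℝ)) := by
  set M : ℕ → ℕ → ℝ := fun r s =>
    X * (den a (T \ T') * den a (T' \ T) * (kap a (T ∩ T') r s - den a (T ∩ T') ^ 2)) with hM
  set S : ℕ → ℕ → ℝ := fun r s => ∑ y ∈ Ico X0 (X0 + X),
    (ind a T (y + r) - den a T) * (ind a T' (y + s) - den a T') with hS
  have h1 : ∀ r s, |S r s - M r s| ≤ 8 * ((∏ q ∈ T, (a q : ℝ)) * ∏ q ∈ T', (a q : ℝ)) :=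
    fun r s => step hper hpair hpabs hA hT hT' r s X0 X
  have h2 : ∑ r ∈ range H, ∑ s ∈ range H, M r s =
      X * (den a (T \ T') * den a (T' \ T) *
        ∑ r ∈ range H, ∑ s ∈ range H, (kap a (T ∩ T') r s - den a (T ∩ T') ^ 2)) := by
    simp only [hM, mul_sum]
  have h3 : |∑ r ∈ range H, ∑ s ∈ range H, M r s| =
      X * (den a (T \ T') * den a (T' \ T) *
        |∑ r ∈ range H, ∑ s ∈ range H, (kap a (T ∩ T') r s - den a (T ∩ T') ^ 2)|) := by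
    rw [h2, abs_mul, abs_mul, abs_mul, abs_of_nonneg (den_nonneg a (T \ T')),
      abs_of_nonneg (den_nonneg a (T' \ T)), abs_of_nonneg (Nat.cast_nonneg X)]
  have h4 : |∑ r ∈ range H, ∑ s ∈ range H, (S r s - M r s)| ≤
      8 * (H : ℝ) ^ 2 * ((∏ q ∈ T, (a q : ℝ)) * ∏ q ∈ T', (a q : ℝ)) := by
    calc |∑ r ∈ range H, ∑ s ∈ range H, (S r s - M r s)|
        ≤ ∑ r ∈ range H, |∑ s ∈ range H, (S r s - M r s)| := abs_sum_le_sum_abs _ _
      _ ≤ ∑ r ∈ range H, ∑ s ∈ range H, |S r s - M r s| :=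
          sum_le_sum fun r _ => abs_sum_le_sum_abs _ _
      _ ≤ ∑ r ∈ range H, ∑ s ∈ range H, 8 * ((∏ q ∈ T, (a q : ℝ)) * ∏ q ∈ T', (a q : ℝ)) :=
          sum_le_sum fun r _ => sum_le_sum fun s _ => h1 r s
      _ = 8 * (H : ℝ) ^ 2 * ((∏ q ∈ T, (a q : ℝ)) * ∏ q ∈ T', (a q : ℝ)) := by
          rw [sum_const, sum_const, card_range, nsmul_eq_mul, nsmul_eq_mul]
          ring
  have h5 : ∑ r ∈ range H, ∑ s ∈ range H, S r s =
      ∑ r ∈ range H, ∑ s ∈ range H, M r s + ∑ r ∈ range H, ∑ s ∈ range H, (S r s - M r s) := by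
    rw [← sum_add_distrib]
    refine sum_congr rfl fun r _ => ?_
    rw [← sum_add_distrib]
    refine sum_congr rfl fun s _ => ?_
    ring
  rw [h5]
  refine (abs_add_le _ _).trans ?_
  rw [h3]
  exact add_le_add le_rfl h4

/-- expanding the square -/
theorem expand (D : Finset (Finset ℕ)) (lam : Finset ℕ → ℝ) (f : Finset ℕ → ℕ → ℕ → ℝ)
    (I : Finset ℕ) (H : ℕ) :
    ∑ y ∈ I, (∑ r ∈ range H, ∑ T ∈ D, lam T * f T r y) ^ 2 =
      ∑ T ∈ D, ∑ T' ∈ D, lam T * lam T' *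
        ∑ r ∈ range H, ∑ s ∈ range H, ∑ y ∈ I, f T r y * f T' s y := by
  have h1 : ∀ y, (∑ r ∈ range H, ∑ T ∈ D, lam T * f T r y) ^ 2 =
      ∑ T ∈ D, ∑ T' ∈ D, lam T * lam T' *
        ∑ r ∈ range H, ∑ s ∈ range H, f T r y * f T' s y := by
    intro y
    have h2 : ∑ r ∈ range H, ∑ T ∈ D, lam T * f T r y =
        ∑ T ∈ D, lam T * ∑ r ∈ range H, f T r y := by
      rw [sum_comm]
      refine sum_congr rfl fun T _ => ?_
      rw [mul_sum]
    rw [h2, sq, sum_mul_sum]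
    refine sum_congr rfl fun T _ => sum_congr rfl fun T' _ => ?_
    rw [← sum_mul_sum]
    ring
  rw [sum_congr rfl fun y _ => h1 y, sum_comm]
  refine sum_congr rfl fun T _ => ?_
  rw [sum_comm]
  refine sum_congr rfl fun T' _ => ?_
  rw [← mul_sum]
  congr 1
  rw [sum_comm]
  refine sum_congr rfl fun r _ => ?_
  rw [sum_comm]

/-- all pairs of sets -/
theorem pairs (P : Finset ℕ) (D : Finset (Finset ℕ)) (hD : ∀ T ∈ D, T ⊆ P)
    (d t : Finset ℕ → ℝ) (hd : ∀ e, 0 ≤ d e) (ht : ∀ e, 0 ≤ t e) :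
    ∑ T ∈ D, ∑ T' ∈ D, d (T \ T') * d (T' \ T) * t (T ∩ T') ≤
      (∑ e ∈ P.powerset, d e) ^ 2 * ∑ g ∈ P.powerset, t g := by
  classical
  set φ : Finset ℕ × Finset ℕ → (Finset ℕ × Finset ℕ) × Finset ℕ :=
    fun p => ((p.1 \ p.2, p.2 \ p.1), p.1 ∩ p.2) with hφ
  have hinj : Set.InjOn φ (↑(D ×ˢ D) : Set (Finset ℕ × Finset ℕ)) := by
    rintro ⟨A, B⟩ _ ⟨A', B'⟩ _ h
    simp only [hφ, Prod.mk.injEq] at h
    obtain ⟨⟨h1, h2⟩, h3⟩ := h
    have e1 : A = A' := by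
      rw [← sdiff_union_inter A B, h1, h3, sdiff_union_inter]
    have e2 : B = B' := by
      rw [← sdiff_union_inter B A, h2, inter_comm B A, h3, inter_comm A' B', sdiff_union_inter]
    rw [e1, e2]
  have h1 : ∑ T ∈ D, ∑ T' ∈ D, d (T \ T') * d (T' \ T) * t (T ∩ T') =
      ∑ x ∈ (D ×ˢ D).image φ, d x.1.1 * d x.1.2 * t x.2 := by
    rw [sum_image hinj, sum_product]
  have h2 : (D ×ˢ D).image φ ⊆ (P.powerset ×ˢ P.powerset) ×ˢ P.powerset := by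
    intro x hx
    rw [mem_image] at hx
    obtain ⟨⟨A, B⟩, hp, rfl⟩ := hx
    rw [mem_product] at hp
    have hA := hD A hp.1
    have hB := hD B hp.2
    simp only [hφ, mem_product, mem_powerset]
    exact ⟨⟨sdiff_subset.trans hA, sdiff_subset.trans hB⟩, inter_subset_left.trans hA⟩
  rw [h1]
  refine (sum_le_sum_of_subset_of_nonneg h2 fun x _ _ => ?_).trans_eq ?_
  · exact mul_nonneg (mul_nonneg (hd _) (hd _)) (ht _)
  · rw [sum_product, sum_product, sq, sum_mul_sum, sum_mul]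
    refine sum_congr rfl fun x _ => ?_
    rw [sum_mul]
    refine sum_congr rfl fun y _ => ?_
    rw [mul_sum]

theorem sum_den_le {a : ℕ → ℕ} {P : Finset ℕ} {z : ℕ} (hA : Adm a P z) :
    ∑ e ∈ P.powerset, den a e ≤ ∏ q ∈ P, (1 + 4 / (q : ℝ)) := by
  unfold den
  rw [← prod_one_add]
  refine prod_le_prod (fun q _ => by positivity) fun q hq => ?_
  obtain ⟨h1, -, -, h4⟩ := hA q hq
  have hq0 : (0 : ℝ) < q := by exact_mod_cast h1.pos
  have h5 : (a q : ℝ) ≤ 2 * q := by exact_mod_cast h4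
  have h6 : (a q : ℝ) / (q : ℝ) ^ 2 ≤ 4 / q := by
    rw [div_le_div_iff₀ (by positivity) hq0]
    nlinarith
  linarith

end VLx

open VLx

/-- VL: the variance lemma. -/
theorem vl (hper : St_PER) (hpair : St_PAIR) (hpabs : St_PABS) (hsumg : St_SUMG) : St_VL := by
  intro a P z G H X0 X D lam hA hD hG hlam
  rw [expand D lam (fun T r y => ind a T (y + r) - den a T)]
  set W : ℝ := ∏ q ∈ P, (1 + 4 / (q : ℝ)) with hW
  set Bd : ℝ := H * (3 * (H : ℝ) / G + 2 * z + 2 * (G : ℝ) ^ 3) with hBd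
  set t : Finset ℕ → ℝ := fun g =>
    |∑ r ∈ range H, ∑ s ∈ range H, (kap a g r s - den a g ^ 2)| with ht
  have h1 : ∀ T ∈ D, ∀ T' ∈ D, lam T * lam T' * ∑ r ∈ range H, ∑ s ∈ range H,
      ∑ y ∈ Ico X0 (X0 + X), (ind a T (y + r) - den a T) * (ind a T' (y + s) - den a T') ≤
      X * (den a (T \ T') * den a (T' \ T) * t (T ∩ T')) +
      8 * (H : ℝ) ^ 2 * ((∏ q ∈ T, (a q : ℝ)) * ∏ q ∈ T', (a q : ℝ)) := by
    intro T hT T' hT'
    refine (le_abs_self _).trans ?_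
    rw [abs_mul, abs_mul]
    have h2 := step2 hper hpair hpabs hA (hD T hT) (hD T' hT') H X0 X
    have h3 : |lam T| * |lam T'| ≤ 1 :=
      mul_le_one₀ (hlam T) (abs_nonneg _) (hlam T')
    refine (mul_le_mul_of_nonneg_right h3 (abs_nonneg _)).trans ?_
    rw [one_mul]
    exact h2
  refine (sum_le_sum fun T hT => sum_le_sum fun T' hT' => h1 T hT T' hT').trans ?_
  have h4 : ∑ T ∈ D, ∑ T' ∈ D, (X * (den a (T \ T') * den a (T' \ T) * t (T ∩ T')) +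
      8 * (H : ℝ) ^ 2 * ((∏ q ∈ T, (a q : ℝ)) * ∏ q ∈ T', (a q : ℝ))) =
      X * (∑ T ∈ D, ∑ T' ∈ D, den a (T \ T') * den a (T' \ T) * t (T ∩ T')) +
      8 * (H : ℝ) ^ 2 * (∑ T ∈ D, ∏ q ∈ T, (a q : ℝ)) ^ 2 := by
    rw [sq (∑ T ∈ D, ∏ q ∈ T, (a q : ℝ)), sum_mul_sum]
    simp only [sum_add_distrib, mul_sum]
  rw [h4]
  refine add_le_add ?_ le_rfl
  have h5 := pairs P D hD (den a) t (den_nonneg a) fun g => abs_nonneg _
  have h6 := sum_den_le hA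
  have h7 : ∑ g ∈ P.powerset, t g ≤ W * Bd := hsumg a P z G H hA hG
  have h8 : 0 ≤ ∑ e ∈ P.powerset, den a e := sum_nonneg fun e _ => den_nonneg a e
  have h9 : 0 ≤ ∑ g ∈ P.powerset, t g := sum_nonneg fun g _ => abs_nonneg _
  have h10 : (∑ e ∈ P.powerset, den a e) ^ 2 * ∑ g ∈ P.powerset, t g ≤ W ^ 2 * (W * Bd) := by
    refine mul_le_mul ?_ h7 h9 (by positivity)
    exact pow_le_pow_left₀ h8 h6 2
  have h11 : (X : ℝ) * W ^ 3 * Bd = X * (W ^ 2 * (W * Bd)) := by ring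
  rw [h11]
  exact mul_le_mul_of_nonneg_left (h5.trans h10) (Nat.cast_nonneg X)

end Pool.Agent.H862R5.EP
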